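import Pool.Prelude.Def_H_3587d628
import Pool.Agent.Lib.MP_cb9cb0_lc.X.Main
import Pool.Agent.Lib.MP_cb9cb0_lc.X.SndC
import Pool.Agent.Lib.MP_cb9cb0_lc.X.Paths
import Pool.Agent.Lib.MP_cb9cb0_lc.X.Fin
import Pool.Agent.Lib.MP_cb9cb0_lc.X.FinPx
import Pool.Agent.Lib.MP_cb9cb0_lc.X.Fin2
import Pool.Agent.Lib.MP_cb9cb0_lc.X.Comp
import Pool.Agent.Lib.MP_cb9cb0_lc.X.Net
import Pool.Agent.Lib.MP_cb9cb0_lc.X.Gate
import Pool.Agent.Lib.MP_cb9cb0_lc.X.Act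
import Pool.Agent.Lib.MP_cb9cb0_lc.X.Complete
import Pool.Agent.Lib.MP_cb9cb0_lc.X.Term
import Pool.Agent.Lib.MP_cb9cb0_lc.X.Norm
import Pool.Agent.Lib.MP_cb9cb0_lc.X.Grid
import Pool.Agent.Lib.MP_cb9cb0_lc.X.Link
import Pool.Agent.Lib.MP_cb9cb0_lc.X.Col
import Pool.Agent.Lib.MP_cb9cb0_lc.X.Cnf
import Pool.Agent.Lib.MP_cb9cb0_lc.X.Lp
import Pool.Agent.Lib.MP_cb9cb0_lc.X.Cert
import Pool.Agent.Lib.MP_cb9cb0_lc.X.Alg
import Pool.Agent.Lib.MP_cb9cb0_lc.X.Pad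

set_option autoImplicit false

namespace Pool.Agent.Results.MP_cb9cb0_lc.TwoExpComplete

open Pool.Agent.Lib.MP_cb9cb0_lc

/-- Recognising expressibility by binary submodular functions for polynomials of degree 4 is
complete for doubly exponential time; hardness holds under the promise of submodularity. -/
theorem result :
    (∃ D ∈ TwoEXP, ∀ I : Input, IsQuartic I →
      (D (N487b59b3.bitEncode I) = true ↔ Expressible (value I))) ∧
    ∀ L ∈ TwoEXP, ∃ φ : List Bool → Input, N68a2faeb.IsPolyTime φ ∧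
      ∀ w, IsQuartic (φ w) ∧ Submodular (value (φ w)) ∧
        (L w = true ↔ Expressible (value (φ w))) :=
  ⟨X.upper_of (X.algSt X.lpSt X.certSt) X.padSt,
    X.hard_of X.h0St (X.soundSt X.h0St) (X.pathsSt X.h0St)
      (X.completeSt X.h0St X.pxSt X.pgSt X.netSt X.gateSt X.finSt (X.actSt X.compSt))
      (X.submodSt X.h0St) X.termSt X.normSt X.gridSt X.linkSt X.colSt X.cnfSt⟩

end Pool.Agent.Results.MP_cb9cb0_lc.TwoExpComplete
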